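import Mathlib
import Pool.Agent.R987.FD.Perm

/-!
# Neither of the two colourings is a block-factor of the other

Write `B(w)` for the number of orders in which the letters of `w` can arrive. Then
`P(X ∈ [w]) = B(w) / (2^n (n+1)!)` and `P(Y ∈ [w]) = 2 B(w) / (n+2)!`.

* `X` is not a block-factor of `Y`: the alternating word has `B = 2^(n-1)`, and every proper word of
  length `m` has `B ≥ 2^(m-1)`, so that the cylinders of `Y` are too large.
* `Y` is not a block-factor of `X`: if `u` runs through the words with image `w`, then the numbers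
  `B(u)` add up to `2^(m+1) (m+1)! / (n+2)! * B(w)`. For alternating `w` this has growth rate `4`,
  and it follows that the words with alternating image have few defects and have at most two long
  alternating runs. Comparing growth rates for the images consisting of two alternating runs gives a
  contradiction: the growth rate `4 + 2 √2 = 6.83` on the image side would have to be either at most
  `6` or at least `7`.
-/

set_option autoImplicit false

open MeasureTheory
open scoped ENNReal

namespace Pool.Agent.Results.MP_f3d782_pr.NeitherBlockFactor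

/-- The event `E_n`: the letter `z j` arrives at time `σ j`, and at every time `t` the subsequence
of the letters that have arrived by time `t` has no two consecutive equal terms. -/
def Good {q n : ℕ} (z : Fin n → Fin q) (σ : Equiv.Perm (Fin n)) : Prop :=
  ∀ t i j : Fin n, i < j → σ i ≤ t → σ j ≤ t → (∀ k, i < k → k < j → t < σ k) → z i ≠ z j

/-- The law of the word `z` when the pair `(z, σ)` is uniform, conditioned on `E_n`: the number of
pairs in `E_n` with first coordinate `w`, divided by the number of pairs in `E_n`. -/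
noncomputable def mu (q n : ℕ) (w : Fin n → Fin q) : ℝ≥0∞ :=
  (Nat.card {σ : Equiv.Perm (Fin n) // Good w σ} : ℝ≥0∞) /
    (Nat.card {p : (Fin n → Fin q) × Equiv.Perm (Fin n) // Good p.1 p.2} : ℝ≥0∞)

/-- `P` is the law of the process `C^(q)`: for all `m` and `n` the word
`(C_{m+1}, …, C_{m+n})` has the law `μ_{q,n}`. -/
def IsLaw (q : ℕ) (P : Measure (ℤ → Fin q)) : Prop :=
  IsProbabilityMeasure P ∧ ∀ (m : ℤ) (n : ℕ) (w : Fin n → Fin q),
    P {x | ∀ j : Fin n, x (m + 1 + ((j : ℕ) : ℤ)) = w j} = mu q n w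

/-- The process with law `PB` is a block-factor of the process with law `PA`. -/
def IsBlockFactor {a b : ℕ} (PB : Measure (ℤ → Fin b)) (PA : Measure (ℤ → Fin a)) : Prop :=
  ∃ r : ℕ, 1 ≤ r ∧ ∃ g : (Fin r → Fin a) → Fin b,
    PA.map (fun x i => g (fun j => x (i + 1 + ((j : ℕ) : ℤ)))) = PB

open Pool.Agent.R987.FD

lemma card_good {q n : ℕ} (w : Fin n → Fin q) :
    Nat.card {σ : Equiv.Perm (Fin n) // Good w σ} = B (List.ofFn w) := by
  classical
  rw [← cnt_eq, cnt, Nat.card_eq_fintype_card, Fintype.card_subtype, Finset.card_filter]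
  rfl

lemma card_pairs (q n : ℕ) :
    Nat.card {p : (Fin n → Fin q) × Equiv.Perm (Fin n) // Good p.1 p.2} = Zc q n := by
  classical
  rw [Nat.card_eq_fintype_card, Fintype.card_subtype, Finset.card_filter,
    Fintype.sum_prod_type]
  unfold Zc
  rw [← sw_eq]
  apply Finset.sum_congr rfl
  intro z _
  rw [← card_good, Nat.card_eq_fintype_card, Fintype.card_subtype, Finset.card_filter]

lemma mu_eq {q n : ℕ} (w : Fin n → Fin q) :
    mu q n w = (B (List.ofFn w) : ℝ≥0∞) / (Zc q n : ℝ≥0∞) := by
  unfold mu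
  rw [card_good, card_pairs]

lemma meas_win {q : ℕ} (s : ℤ) (n : ℕ) :
    Measurable (fun x : ℤ → Fin q => (fun j : Fin n => x (s + 1 + ((j : ℕ) : ℤ)))) := by
  apply measurable_pi_lambda
  intro j
  exact measurable_pi_apply _

/-- the basic identity -/
lemma ident {a b : ℕ} {PA : Measure (ℤ → Fin a)} {PB : Measure (ℤ → Fin b)} (hA : IsLaw a PA)
    (hB : IsLaw b PB) {r : ℕ} (hr : 1 ≤ r) (g : (Fin r → Fin a) → Fin b)
    (hg : PA.map (fun x i => g (fun j => x (i + 1 + ((j : ℕ) : ℤ)))) = PB)
    (hZa : Zc a 0 ≠ 0 → ∀ n, Zc a n ≠ 0) (hZb : Zc b 0 ≠ 0 → ∀ n, Zc b n ≠ 0)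
    (n : ℕ) (w : Fin n → Fin b) :
    B (List.ofFn w) * Zc a (n + r - 1) = Zc b n *
      ∑ u ∈ Finset.univ.filter (fun u : Fin (n + r - 1) → Fin a =>
        ∀ j : Fin n, g (fun i : Fin r => u ⟨j + i, by have := j.2; have := i.2; omega⟩) = w j),
        B (List.ofFn u) := by
  classical
  have hmeas : Measurable (fun x : ℤ → Fin a => fun i : ℤ =>
      g (fun j : Fin r => x (i + 1 + ((j : ℕ) : ℤ)))) := by
    apply measurable_pi_lambda
    intro i
    exact (measurable_of_finite g).comp (meas_win i r)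
  have hset : MeasurableSet {x : ℤ → Fin b | ∀ j : Fin n, x (0 + 1 + ((j : ℕ) : ℤ)) = w j} := by
    have : {x : ℤ → Fin b | ∀ j : Fin n, x (0 + 1 + ((j : ℕ) : ℤ)) = w j} =
        (fun x : ℤ → Fin b => (fun j : Fin n => x (0 + 1 + ((j : ℕ) : ℤ)))) ⁻¹' {w} := by
      ext x
      simp only [Set.mem_setOf_eq, Set.mem_preimage, Set.mem_singleton_iff, funext_iff]
    rw [this]
    exact meas_win 0 n (measurableSet_singleton _)
  have h1 := hB.2 0 n w
  rw [← hg, Measure.map_apply hmeas hset] at h1
  set Fs := Finset.univ.filter (fun u : Fin (n + r - 1) → Fin a =>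
        ∀ j : Fin n, g (fun i : Fin r => u ⟨j + i, by have := j.2; have := i.2; omega⟩) = w j)
    with hFs
  have h2 : (fun x : ℤ → Fin a => fun i : ℤ => g (fun j : Fin r => x (i + 1 + ((j : ℕ) : ℤ)))) ⁻¹'
      {x : ℤ → Fin b | ∀ j : Fin n, x (0 + 1 + ((j : ℕ) : ℤ)) = w j} =
      (fun x : ℤ → Fin a => (fun j : Fin (n + r - 1) => x (1 + 1 + ((j : ℕ) : ℤ)))) ⁻¹' ↑Fs := by
    ext x
    simp only [Set.mem_preimage, Set.mem_setOf_eq, Finset.mem_coe, hFs, Finset.mem_filter,
      Finset.mem_univ, true_and]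
    apply forall_congr'
    intro j
    have : ∀ i : Fin r, (0 + 1 + ((j : ℕ) : ℤ) + 1 + ((i : ℕ) : ℤ)) =
        1 + 1 + (((j : ℕ) + (i : ℕ) : ℕ) : ℤ) := by
      intro i; push_cast; ring
    simp only [this]
  rw [h2, ← sum_measure_preimage_singleton Fs
    (fun y _ => meas_win 1 (n + r - 1) (measurableSet_singleton _))] at h1
  have h3 : ∀ u : Fin (n + r - 1) → Fin a,
      PA ((fun x : ℤ → Fin a => (fun j : Fin (n + r - 1) => x (1 + 1 + ((j : ℕ) : ℤ)))) ⁻¹' {u}) =
      (B (List.ofFn u) : ℝ≥0∞) / (Zc a (n + r - 1) : ℝ≥0∞) := by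
    intro u
    rw [← mu_eq, ← hA.2 1 (n + r - 1) u]
    congr 1
    ext x
    simp only [Set.mem_setOf_eq, Set.mem_preimage, Set.mem_singleton_iff, funext_iff]
  simp only [h3] at h1
  rw [mu_eq] at h1
  have hz1 : (Zc a (n + r - 1) : ℝ≥0∞) ≠ 0 := by
    exact_mod_cast hZa (by simp [Zc_zero]) _
  have hz2 : (Zc b n : ℝ≥0∞) ≠ 0 := by
    exact_mod_cast hZb (by simp [Zc_zero]) _
  simp only [ENNReal.div_eq_inv_mul] at h1
  rw [← Finset.mul_sum, ← ENNReal.div_eq_inv_mul, ← ENNReal.div_eq_inv_mul] at h1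
  rw [ENNReal.div_eq_div_iff hz2 (ENNReal.natCast_ne_top _) hz1 (ENNReal.natCast_ne_top _)] at h1
  have h4 : ((Zc b n * ∑ u ∈ Fs, B (List.ofFn u) : ℕ) : ℝ≥0∞) =
      ((Zc a (n + r - 1) * B (List.ofFn w) : ℕ) : ℝ≥0∞) := by
    push_cast
    exact h1
  have h5 : Zc b n * ∑ u ∈ Fs, B (List.ofFn u) = Zc a (n + r - 1) * B (List.ofFn w) := by
    exact_mod_cast h4
  rw [h5]; ring

lemma Z4_ne (n : ℕ) : Zc 4 n ≠ 0 := by
  rw [Z4]; positivity

lemma Z3_ne (n : ℕ) : Zc 3 n ≠ 0 := by
  intro h
  have := Z3 n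
  rw [h] at this
  have h2 := Nat.factorial_pos (n + 2)
  omega

/-- `X` is not a block-factor of `Y` -/
lemma partOne {PX : Measure (ℤ → Fin 4)} {PY : Measure (ℤ → Fin 3)} (hX : IsLaw 4 PX)
    (hY : IsLaw 3 PY) : ¬ IsBlockFactor PX PY := by
  rintro ⟨r, hr, g, hg⟩
  obtain ⟨N, hN⟩ := asym (show 1 < 2 by norm_num) ((r + 1) ^ r) r
  have hN' := hN (N + 1) (by omega)
  set n := N + 1 with hn
  have hl : (alt (0 : Fin 4) 1 n).length = n := alt_length _ _ _
  have hw : List.ofFn (fun i : Fin n => (alt (0 : Fin 4) 1 n)[(i : ℕ)]'(by rw [hl]; exact i.2)) =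
      alt (0 : Fin 4) 1 n := by
    apply List.ext_getElem
    · rw [List.length_ofFn]; exact hl.symm
    · intro i h1 h2; simp only [List.getElem_ofFn]
  have h1 := ident hY hX hr g hg (fun _ => Z3_ne) (fun _ => Z4_ne) n
    (fun i : Fin n => (alt (0 : Fin 4) 1 n)[(i : ℕ)]'(by rw [hl]; exact i.2))
  rw [hw] at h1
  set Fs := Finset.univ.filter (fun u : Fin (n + r - 1) → Fin 3 =>
        ∀ j : Fin n, g (fun i : Fin r => u ⟨j + i, by have := j.2; have := i.2; omega⟩) =
          (alt (0 : Fin 4) 1 n)[(j : ℕ)]'(by rw [hl]; exact j.2)) with hFs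
  have hBpos : 0 < B (alt (0 : Fin 4) 1 n) := B_pos (alt_Pr (by decide) n)
  have hpos : 0 < ∑ u ∈ Fs, B (List.ofFn u) := by
    rcases Nat.eq_zero_or_pos (∑ u ∈ Fs, B (List.ofFn u)) with h0 | h0
    · rw [h0, mul_zero] at h1
      have := Nat.mul_pos hBpos (Nat.pos_of_ne_zero (Z3_ne (n + r - 1)))
      omega
    · exact h0
  obtain ⟨u, hu, hu0⟩ := Finset.exists_ne_zero_of_sum_ne_zero hpos.ne'
  have hPu : Pr (List.ofFn u) := by
    by_contra hc
    exact hu0 (B_of_not hc)
  have h2 := two_pow_le (n + r - 1 - 1) (List.ofFn u) (by rw [List.length_ofFn]; omega) hPu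
  have h3 : B (List.ofFn u) ≤ ∑ u ∈ Fs, B (List.ofFn u) :=
    Finset.single_le_sum (f := fun u => B (List.ofFn u)) (fun _ _ => Nat.zero_le _) hu
  have h4 : B (alt (0 : Fin 4) 1 n) ≤ 2 ^ n := by
    have := B_le_two_pow (D_alt n (0 : Fin 4) 1)
    rwa [hl] at this
  have h5 : 2 ^ n * (n + 1).factorial * 2 ^ (n + r - 1) ≤ 2 ^ n * (n + r - 1 + 2).factorial := by
    calc 2 ^ n * (n + 1).factorial * 2 ^ (n + r - 1)
        = 2 * (Zc 4 n * 2 ^ (n + r - 1 - 1)) := by
          rw [Z4]
          have : n + r - 1 = (n + r - 1 - 1) + 1 := by omega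
          conv_lhs => rw [this, pow_succ]
          ring
      _ ≤ 2 * (Zc 4 n * ∑ u ∈ Fs, B (List.ofFn u)) := by
          apply Nat.mul_le_mul_left
          apply Nat.mul_le_mul_left
          exact le_trans h2 h3
      _ = 2 * (B (alt (0 : Fin 4) 1 n) * Zc 3 (n + r - 1)) := by rw [h1]
      _ = B (alt (0 : Fin 4) 1 n) * (n + r - 1 + 2).factorial := by rw [← Z3]; ring
      _ ≤ _ := Nat.mul_le_mul_right _ h4
  have h6 : (n + r - 1 + 2).factorial ≤ (n + 1).factorial * (n + 1 + r) ^ r := by
    rw [show n + r - 1 + 2 = n + 1 + r by omega, ← Nat.factorial_mul_ascFactorial]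
    exact Nat.mul_le_mul_left _ (Nat.ascFactorial_le_pow_add (n + 1) r)
  have h7 : 2 ^ n * (n + 1).factorial * 2 ^ (n + r - 1) ≤
      2 ^ n * (n + 1).factorial * (n + 1 + r) ^ r := by
    calc _ ≤ _ := h5
      _ ≤ 2 ^ n * ((n + 1).factorial * (n + 1 + r) ^ r) := Nat.mul_le_mul_left _ h6
      _ = _ := by ring
  have h8 : 2 ^ (n + r - 1) ≤ (n + 1 + r) ^ r :=
    Nat.le_of_mul_le_mul_left h7 (by positivity)
  have h9 : (n + 1 + r) ^ r ≤ (r + 1) ^ r * (n + 1) ^ r := by
    rw [← mul_pow]
    apply Nat.pow_le_pow_left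
    nlinarith
  have h10 : 2 ^ n ≤ 2 ^ (n + r - 1) := Nat.pow_le_pow_right (by norm_num) (by omega)
  rw [one_pow, mul_one] at hN'
  omega

lemma Wn_ofFn {r n : ℕ} (hr : 1 ≤ r) (g : (Fin r → Fin 4) → Fin 3)
    (u : Fin (n + r - 1) → Fin 4) (w : Fin n → Fin 3) :
    Wn r (fun l => g (fun i => l.getD i 0)) (List.ofFn u) = List.ofFn w ↔
      ∀ j : Fin n, g (fun i : Fin r => u ⟨j + i, by have := j.2; have := i.2; omega⟩) = w j := by
  have hget : ∀ j : Fin n, (Wn r (fun l => g (fun i => l.getD i 0)) (List.ofFn u))[(j : ℕ)]? =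
      some (g (fun i : Fin r => u ⟨j + i, by have := j.2; have := i.2; omega⟩)) := by
    intro j
    rw [Wn_get hr, if_pos (by rw [List.length_ofFn]; have := j.2; omega)]
    congr 2
    funext i
    rw [List.getD_eq_getElem _ _ (by
      simp only [List.length_take, List.length_drop, List.length_ofFn]
      have := j.2; have := i.2; omega)]
    simp
  have hlen : (Wn r (fun l => g (fun i => l.getD i 0)) (List.ofFn u)).length = n ∨ n = 0 := by
    rw [Wn_length hr, List.length_ofFn]; omega
  constructor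
  · intro h j
    have := hget j
    rw [h] at this
    simp only [List.getElem?_ofFn, j.2, dif_pos, Option.some.injEq, Fin.eta] at this
    exact this.symm
  · intro h
    apply List.ext_getElem?
    intro i
    by_cases hi : i < n
    · have := hget ⟨i, hi⟩
      simp only at this
      rw [this, h ⟨i, hi⟩]
      simp [hi]
    · rw [List.getElem?_eq_none, List.getElem?_eq_none]
      · rw [List.length_ofFn]; omega
      · rw [Wn_length hr, List.length_ofFn]; omega

/-- `Y` is not a block-factor of `X` -/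
lemma partTwo {PX : Measure (ℤ → Fin 4)} {PY : Measure (ℤ → Fin 3)} (hX : IsLaw 4 PX)
    (hY : IsLaw 3 PY) : ¬ IsBlockFactor PY PX := by
  classical
  rintro ⟨r0, hr0, g0, hg0⟩
  -- pad the window
  obtain ⟨r, hr, g, hg⟩ : ∃ r : ℕ, 3 ≤ r ∧ ∃ g : (Fin r → Fin 4) → Fin 3,
      PX.map (fun x i => g (fun j => x (i + 1 + ((j : ℕ) : ℤ)))) = PY :=
    ⟨r0 + 2, by omega, fun v => g0 (fun i => v (Fin.castAdd 2 i)), by simpa using hg0⟩
  set γ : List A → C := fun l => g (fun i => l.getD i 0) with hγ
  have key : ∀ (w : List C), w ≠ [] → B w * (2 ^ (w.length + r) * (w.length + r).factorial) =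
      (w.length + 2).factorial *
      ∑ u ∈ Finset.univ.filter (fun u : Fin (w.length + r - 1) → A => Wn r γ (List.ofFn u) = w),
        B (List.ofFn u) := by
    intro w hw
    have hwl : 0 < w.length := List.length_pos_iff.2 hw
    have h1 := ident hX hY (by omega) g hg (fun _ => Z4_ne) (fun _ => Z3_ne) w.length
      (fun i => w[(i : ℕ)])
    have hwf : List.ofFn (fun i : Fin w.length => w[(i : ℕ)]) = w := List.ofFn_getElem
    have h2 : Finset.univ.filter (fun u : Fin (w.length + r - 1) → Fin 4 =>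
        ∀ j : Fin w.length, g (fun i : Fin r => u ⟨j + i, by
          have := j.2; have := i.2; omega⟩) = w[(j : ℕ)]) =
        Finset.univ.filter (fun u : Fin (w.length + r - 1) → A =>
          Wn r γ (List.ofFn u) = w) := by
      ext u
      simp only [Finset.mem_filter, Finset.mem_univ, true_and]
      rw [← Wn_ofFn (by omega) g u (fun i => w[(i : ℕ)]), hwf]
    rw [h2, hwf, Z4] at h1
    have h3 : w.length + r - 1 + 1 = w.length + r := by omega
    calc B w * (2 ^ (w.length + r) * (w.length + r).factorial)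
        = 2 * (B w * (2 ^ (w.length + r - 1) * (w.length + r - 1 + 1).factorial)) := by
          rw [h3]
          conv_lhs => rw [← h3, pow_succ]
          rw [h3]
          ring
      _ = 2 * (Zc 3 w.length * ∑ u ∈ Finset.univ.filter
          (fun u : Fin (w.length + r - 1) → A => Wn r γ (List.ofFn u) = w),
            B (List.ofFn u)) := by rw [h1]
      _ = _ := by rw [← Z3]; ring
  apply Pool.Agent.R987.FD.main (r := r) (γ := γ)
  refine ⟨hr, ?_, ?_⟩
  · intro u hu hPu
    have hlen : (Wn r γ u).length = u.length + 1 - r := Wn_length (by omega) u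
    have hwne : Wn r γ u ≠ [] := by
      intro h0
      rw [h0] at hlen
      simp at hlen
      omega
    have h1 := key (Wn r γ u) hwne
    have hm : (Wn r γ u).length + r - 1 = u.length := by omega
    have hsum : B u ≤ ∑ v ∈ Finset.univ.filter
        (fun v : Fin ((Wn r γ u).length + r - 1) → A => Wn r γ (List.ofFn v) = Wn r γ u),
        B (List.ofFn v) := by
      have hu' : List.ofFn (fun i : Fin ((Wn r γ u).length + r - 1) =>
          u[(i : ℕ)]'(by have := i.2; omega)) = u := by
        apply List.ext_getElem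
        · rw [List.length_ofFn, hm]
        · intro i h1 h2; simp
      have := Finset.single_le_sum (f := fun v : Fin ((Wn r γ u).length + r - 1) → A =>
        B (List.ofFn v)) (s := Finset.univ.filter
        (fun v : Fin ((Wn r γ u).length + r - 1) → A => Wn r γ (List.ofFn v) = Wn r γ u))
        (fun _ _ => Nat.zero_le _)
        (a := fun i => u[(i : ℕ)]'(by have := i.2; omega)) (by
          rw [Finset.mem_filter]
          exact ⟨Finset.mem_univ _, by rw [hu']⟩)
      simp only [hu'] at this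
      exact this
    set n := (Wn r γ u).length with hn
    have hnr : n + r = u.length + 1 := by omega
    have hfac : (n + r).factorial ≤ (n + 2).factorial * (u.length + 1) ^ r := by
      have e1 : n + r = (n + 2) + (r - 2) := by omega
      have h2 := Nat.ascFactorial_le_pow_add (n + 2) (r - 2)
      have h3 : (n + r).factorial = (n + 2).factorial * (n + 2 + 1).ascFactorial (r - 2) := by
        rw [Nat.factorial_mul_ascFactorial, ← e1]
      rw [h3]
      apply Nat.mul_le_mul_left
      calc _ ≤ _ := h2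
        _ = (u.length + 1) ^ (r - 2) := by rw [← e1, hnr]
        _ ≤ _ := Nat.pow_le_pow_right (by omega) (by omega)
    have hle : (n + 2).factorial * B u ≤ (n + 2).factorial *
        (2 ^ (u.length + 1) * (u.length + 1) ^ r * B (Wn r γ u)) := by
      calc (n + 2).factorial * B u ≤ _ := Nat.mul_le_mul_left _ hsum
        _ = B (Wn r γ u) * (2 ^ (n + r) * (n + r).factorial) := h1.symm
        _ ≤ B (Wn r γ u) * (2 ^ (n + r) * ((n + 2).factorial * (u.length + 1) ^ r)) := by gcongr
        _ = _ := by rw [hnr]; ring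
    have hle' := Nat.le_of_mul_le_mul_left hle (Nat.factorial_pos _)
    refine ⟨?_, hle'⟩
    rw [← B_pos_iff]
    rcases Nat.eq_zero_or_pos (B (Wn r γ u)) with h0 | h0
    · rw [h0, mul_zero] at hle'
      have := B_pos hPu
      omega
    · exact h0
  · intro w hw hPw
    have h1 := key w hw
    have hfac : (w.length + 2).factorial ≤ (w.length + r).factorial :=
      Nat.factorial_le (by omega)
    have hle : (w.length + 2).factorial * (2 ^ (w.length + r) * B w) ≤
        (w.length + 2).factorial * ∑ u ∈ Finset.univ.filter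
          (fun u : Fin (w.length + r - 1) → A => Wn r γ (List.ofFn u) = w), B (List.ofFn u) := by
      rw [← h1]
      calc (w.length + 2).factorial * (2 ^ (w.length + r) * B w)
          ≤ (w.length + r).factorial * (2 ^ (w.length + r) * B w) := Nat.mul_le_mul_right _ hfac
        _ = _ := by ring
    exact Nat.le_of_mul_le_mul_left hle (Nat.factorial_pos _)

/-- Neither of the two colourings is a block-factor of the other. -/
theorem result (PX : Measure (ℤ → Fin 4)) (PY : Measure (ℤ → Fin 3))
    (hX : IsLaw 4 PX) (hY : IsLaw 3 PY) : ¬ IsBlockFactor PY PX ∧ ¬ IsBlockFactor PX PY :=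
  ⟨partTwo hX hY, partOne hX hY⟩

end Pool.Agent.Results.MP_f3d782_pr.NeitherBlockFactor
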